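import Mathlib
import Pool.Agent.V11176.RSK
import Pool.Agent.V11176.JackCount
import Pool.Agent.V11176.JackAux

/-!
# MP_d77547_co: set-partition quasisymmetric expansion of one-row Jack polynomials

`{1,…,n}` is modelled by `Fin n = {0,…,n-1}` (so descents `i` are shifted by one), variables are
indexed by `ℕ`, and quasisymmetric functions of degree `n` are elements of
`MvPowerSeries ℕ ℚ[X]`, where the polynomial variable `X` is the indeterminate `α`.

The definitions of RSK insertion (`rowInsert`, `insT`, `rskP`), of the row index `rowIdx`, of the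
descent set `desSet` of a tableau and of `f_β(π)` (`refill`) are in the imported files
`Pool.Agent.V11176.RSK` and `Pool.Agent.V11176.JackAux`.
-/

namespace Pool.Agent.Results.MP_d77547_co.OneRowJack

open Finset Polynomial V11176

/-- The monomial symmetric function `m_λ` (`l` is the multiset of parts of `λ`): the sum of all
monomials `x^e` whose multiset of nonzero exponents is `l`. -/
noncomputable def mSym (l : Multiset ℕ) : MvPowerSeries ℕ ℚ[X] :=
  fun e => if e.support.val.map e = l then 1 else 0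

/-- The normalised one-row Jack polynomial: the sum over the partitions `l` of `n` of
`n!/l! * ∏_{cells} (α + arm) * m_l`; a row of length `p` has cells `j = 0,…,p-1` with arms
`p - 1 - j`. -/
noncomputable def jackRow (n : ℕ) : MvPowerSeries ℕ ℚ[X] :=
  ∑ l : Nat.Partition n,
    (C ((n.factorial : ℚ) / ((l.parts.map Nat.factorial).prod : ℕ)) *
      (l.parts.map (fun p => ∏ j ∈ range p, (X + C ((p - 1 - j : ℕ) : ℚ)))).prod) • mSym l.parts

/-- The fundamental quasisymmetric function `F_S` of degree `n`: the coefficient of `x^e` is the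
number of weakly increasing `i_0 ≤ … ≤ i_{n-1}`, strictly increasing at the places of `S`,
with `x_{i_0} ⋯ x_{i_{n-1}} = x^e`. -/
noncomputable def fundF (n : ℕ) (S : Set ℕ) : MvPowerSeries ℕ ℚ[X] :=
  fun e => ((Nat.card {i : Fin n → ℕ // Monotone i ∧
    (∀ j (h : j + 1 < n), j ∈ S → i ⟨j, by omega⟩ < i ⟨j + 1, h⟩) ∧
    ∑ k, Finsupp.single (i k) 1 = e} : ℕ) : ℚ[X])

theorem content_multiset {n : ℕ} (i : Fin n → ℕ) :
    Finsupp.toMultiset (∑ k, Finsupp.single (i k) 1) = univ.val.map i := by
  rw [Finsupp.toMultiset_sum]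
  simp only [Finsupp.toMultiset_single, one_smul]
  have h := Multiset.sum_map_singleton (univ.val.map i)
  rw [Multiset.map_map] at h
  exact h

theorem content_unique {n : ℕ} (i i' : Fin n → ℕ) (h1 : Monotone i) (h2 : Monotone i')
    (h : ∑ k, Finsupp.single (i k) 1 = ∑ k, Finsupp.single (i' k) 1) : i = i' := by
  have h3 := content_multiset i
  rw [h, content_multiset i', Fin.univ_val_map, Fin.univ_val_map, Multiset.coe_eq_coe] at h3
  exact List.ofFn_injective (h3.symm.eq_of_pairwise' h1.sortedLE_ofFn.pairwise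
      h2.sortedLE_ofFn.pairwise)

theorem content_exists {n : ℕ} (e : ℕ →₀ ℕ) (h : ∑ x ∈ e.support, e x = n) :
    ∃ i : Fin n → ℕ, Monotone i ∧ ∑ k, Finsupp.single (i k) 1 = e := by
  obtain ⟨l, hl⟩ := Quot.exists_rep (Finsupp.toMultiset e)
  have hcard : l.length = n := by
    have h1 := Finsupp.card_toMultiset e
    rw [← hl] at h1
    have h2 : Multiset.card (Quot.mk _ l : Multiset ℕ) = l.length := rfl
    rw [h2] at h1
    rw [h1, ← h]
    rfl
  subst hcard
  refine ⟨l.get ∘ Tuple.sort l.get, Tuple.monotone_sort _, ?_⟩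
  have h3 := content_multiset (l.get ∘ Tuple.sort l.get)
  rw [Fin.univ_val_map] at h3
  have h1 := Equiv.Perm.ofFn_comp_perm (Tuple.sort l.get) l.get
  rw [List.ofFn_get] at h1
  have h4 : Finsupp.toMultiset (∑ k, Finsupp.single ((l.get ∘ Tuple.sort l.get) k) 1) =
      Finsupp.toMultiset e := by
    rw [h3, ← hl]
    exact Quot.sound h1
  have h5 := congrArg Multiset.toFinsupp h4
  rwa [Finsupp.toMultiset_toFinsupp, Finsupp.toMultiset_toFinsupp] at h5

theorem content_apply {n : ℕ} (i : Fin n → ℕ) (x : ℕ) :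
    (∑ k, Finsupp.single (i k) 1 : ℕ →₀ ℕ) x = #{v | i v = x} := by
  rw [Finsupp.finsetSum_apply, Finset.card_filter]
  refine Finset.sum_congr rfl fun k _ => ?_
  rw [Finsupp.single_apply]

theorem content_support {n : ℕ} (i : Fin n → ℕ) (e : ℕ →₀ ℕ)
    (h : ∑ k, Finsupp.single (i k) 1 = e) : e.support = univ.image i := by
  ext x
  rw [Finsupp.mem_support_iff, ← h, content_apply, ← Nat.pos_iff_ne_zero, Finset.card_pos]
  constructor
  · rintro ⟨v, hv⟩
    simp only [mem_filter, mem_univ, true_and] at hv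
    simp only [mem_image, mem_univ, true_and]
    exact ⟨v, hv⟩
  · intro hv
    simp only [mem_image, mem_univ, true_and] at hv
    obtain ⟨v, hv⟩ := hv
    exact ⟨v, by simp [hv]⟩

theorem content_degree {n : ℕ} (i : Fin n → ℕ) (e : ℕ →₀ ℕ)
    (h : ∑ k, Finsupp.single (i k) 1 = e) : ∑ x ∈ e.support, e x = n := by
  have h1 := Finsupp.card_toMultiset e
  rw [← h, content_multiset, Multiset.card_map, Finset.card_val, Finset.card_univ,
    Fintype.card_fin, h] at h1
  rw [h1]
  rfl

open Classical in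
theorem card_fund {n : ℕ} (w : Equiv.Perm (Fin n)) (e : ℕ →₀ ℕ) (r : Fin n → ℕ)
    (hr : Monotone r) (he : ∑ k, Finsupp.single (r k) 1 = e) :
    Nat.card {i : Fin n → ℕ // Monotone i ∧
      (∀ j (h : j + 1 < n), j ∈ desSet n (rskP (List.ofFn (fun i => ((w i : Fin n) : ℕ)))) →
        i ⟨j, by omega⟩ < i ⟨j + 1, h⟩) ∧
      ∑ k, Finsupp.single (i k) 1 = e} = if IncOn r w.symm then 1 else 0 := by
  split_ifs with h
  · rw [Nat.card_eq_one_iff_unique]
    constructor
    · constructor
      rintro ⟨i, hi⟩ ⟨i', hi'⟩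
      apply Subtype.ext
      exact content_unique i i' hi.1 hi'.1 (hi.2.2.trans hi'.2.2.symm)
    · exact ⟨⟨r, hr, (strict_iff w r hr).2 h, he⟩⟩
  · rw [Nat.card_eq_zero]
    left
    constructor
    rintro ⟨i, hi⟩
    have : i = r := content_unique i r hi.1 hr (hi.2.2.trans he.symm)
    subst this
    exact h ((strict_iff w i hr).1 hi.2.1)

theorem jackRow_coeff_ne (n : ℕ) (e : ℕ →₀ ℕ) (h : ∑ x ∈ e.support, e x ≠ n) :
    MvPowerSeries.coeff e (jackRow n) = 0 := by
  unfold jackRow
  rw [map_sum]
  refine Finset.sum_eq_zero fun l _ => ?_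
  rw [MvPowerSeries.coeff_smul, MvPowerSeries.coeff_apply]
  unfold mSym
  rw [if_neg, mul_zero]
  intro h2
  apply h
  rw [← l.parts_sum, ← h2]
  rfl

theorem jackRow_coeff_eq (n : ℕ) (e : ℕ →₀ ℕ) (h : ∑ x ∈ e.support, e x = n) :
    MvPowerSeries.coeff e (jackRow n) =
      C ((n.factorial : ℚ) / ((∏ x ∈ e.support, (e x).factorial : ℕ))) *
        ∏ x ∈ e.support, ∏ j ∈ range (e x), (X + C ((e x - 1 - j : ℕ) : ℚ)) := by
  unfold jackRow
  rw [map_sum]
  have hpos : ∀ {i : ℕ}, i ∈ e.support.val.map e → 0 < i := by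
    intro i hi
    rw [Multiset.mem_map] at hi
    obtain ⟨x, hx, rfl⟩ := hi
    exact Nat.pos_of_ne_zero (Finsupp.mem_support_iff.1 hx)
  let l0 : Nat.Partition n := ⟨e.support.val.map e, hpos, h⟩
  rw [Finset.sum_eq_single l0]
  · rw [MvPowerSeries.coeff_smul, MvPowerSeries.coeff_apply]
    unfold mSym
    rw [if_pos rfl, mul_one]
    simp only [l0, Multiset.map_map]
    rfl
  · intro l _ hl
    rw [MvPowerSeries.coeff_smul, MvPowerSeries.coeff_apply]
    unfold mSym
    rw [if_neg, mul_zero]
    intro h2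
    apply hl
    apply Nat.Partition.ext
    exact h2.symm
  · intro h1
    exact absurd (mem_univ _) h1

theorem prod_arm_eval (a p : ℕ) :
    ∏ j ∈ range p, ((a : ℚ) + ((p - 1 - j : ℕ) : ℚ)) = (p.factorial * Nat.multichoose a p : ℕ) := by
  rw [Finset.prod_range_reflect (fun j => (a : ℚ) + (j : ℚ)) p, Nat.multichoose_eq,
    ← Nat.ascFactorial_eq_factorial_mul_choose', Nat.ascFactorial_eq_prod_range]
  push_cast
  rfl

/-- The expansion, for every `n ≥ 1`. -/
theorem result (n : ℕ) (_hn : 1 ≤ n) :
    jackRow n = ∑ π : Equiv.Perm (Fin n), ∑ β : Finpartition (univ : Finset (Fin n)),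
      (∏ k ∈ range (#β.parts), (X - C (k : ℚ))) •
        fundF n (desSet n (rskP (List.ofFn (fun i => ((refill β π i : Fin n) : ℕ))))) := by
  classical
  ext1 e
  by_cases hdeg : ∑ x ∈ e.support, e x = n
  swap
  · rw [jackRow_coeff_ne n e hdeg, map_sum]
    symm
    refine Finset.sum_eq_zero fun π _ => ?_
    rw [map_sum]
    refine Finset.sum_eq_zero fun β _ => ?_
    rw [MvPowerSeries.coeff_smul, MvPowerSeries.coeff_apply]
    unfold fundF
    have : Nat.card {i : Fin n → ℕ // Monotone i ∧
      (∀ j (h : j + 1 < n), j ∈ desSet n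
        (rskP (List.ofFn (fun i => ((refill β π i : Fin n) : ℕ)))) →
        i ⟨j, by omega⟩ < i ⟨j + 1, h⟩) ∧
      ∑ k, Finsupp.single (i k) 1 = e} = 0 := by
      rw [Nat.card_eq_zero]
      left
      constructor
      rintro ⟨i, hi⟩
      exact hdeg (content_degree i e hi.2.2)
    rw [this]
    simp
  · obtain ⟨r, hr, he⟩ := content_exists e hdeg
    rw [jackRow_coeff_eq n e hdeg]
    apply Polynomial.eq_of_infinite_eval_eq
    have hinj : Function.Injective (fun a : ℕ => (a : ℚ)) := Nat.cast_injective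
    refine (Set.infinite_range_of_injective hinj).mono ?_
    rintro _ ⟨a, rfl⟩
    simp only [Set.mem_ofPred_eq]
    -- left side
    have hL : eval (a : ℚ) (C ((n.factorial : ℚ) / ((∏ x ∈ e.support, (e x).factorial : ℕ))) *
        ∏ x ∈ e.support, ∏ j ∈ range (e x), (X + C ((e x - 1 - j : ℕ) : ℚ))) =
        (n.factorial * ∏ x ∈ e.support, Nat.multichoose a (e x) : ℕ) := by
      rw [eval_mul, eval_C, eval_prod]
      simp_rw [eval_prod, eval_add, eval_X, eval_C]
      simp_rw [prod_arm_eval]
      have hne : ((∏ x ∈ e.support, (e x).factorial : ℕ) : ℚ) ≠ 0 := by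
        rw [Nat.cast_ne_zero, Finset.prod_ne_zero_iff]
        intro x _
        exact Nat.factorial_ne_zero _
      rw [div_mul_eq_mul_div, div_eq_iff hne]
      push_cast
      rw [Finset.prod_mul_distrib]
      ring
    rw [hL]
    -- right side
    have hR : eval (a : ℚ) (MvPowerSeries.coeff e (∑ π : Equiv.Perm (Fin n),
        ∑ β : Finpartition (univ : Finset (Fin n)),
        (∏ k ∈ range (#β.parts), (X - C (k : ℚ))) •
        fundF n (desSet n (rskP (List.ofFn (fun i => ((refill β π i : Fin n) : ℕ))))))) =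
        ∑ π : Equiv.Perm (Fin n), ∑ κ : Fin n → Fin a,
          ((if IncOn r (stdE (κ ∘ π) κ).symm then 1 else 0 : ℕ) : ℚ) := by
      rw [map_sum, eval_finsetSum]
      refine Finset.sum_congr rfl fun π _ => ?_
      rw [map_sum, eval_finsetSum]
      have h1 := sum_kerP (R := ℚ) a (fun β : Finpartition (univ : Finset (Fin n)) =>
        ((Nat.card {i : Fin n → ℕ // Monotone i ∧
          (∀ j (h : j + 1 < n), j ∈ desSet n
            (rskP (List.ofFn (fun i => ((refill β π i : Fin n) : ℕ)))) →
            i ⟨j, by omega⟩ < i ⟨j + 1, h⟩) ∧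
          ∑ k, Finsupp.single (i k) 1 = e} : ℕ) : ℚ))
      have h2 : ∀ κ : Fin n → Fin a, ((Nat.card {i : Fin n → ℕ // Monotone i ∧
          (∀ j (h : j + 1 < n), j ∈ desSet n
            (rskP (List.ofFn (fun i => ((refill (kerP κ) π i : Fin n) : ℕ)))) →
            i ⟨j, by omega⟩ < i ⟨j + 1, h⟩) ∧
          ∑ k, Finsupp.single (i k) 1 = e} : ℕ) : ℚ) =
          ((if IncOn r (stdE (κ ∘ π) κ).symm then 1 else 0 : ℕ) : ℚ) := by
        intro κ
        rw [← card_fund (stdE (κ ∘ π) κ) e r hr he]
        have h3 : (fun i => ((refill (kerP κ) π i : Fin n) : ℕ)) =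
            (fun i => ((stdE (κ ∘ π) κ i : Fin n) : ℕ)) := by
          funext i
          rw [refill_kerP]
        rw [h3]
      rw [← Finset.sum_congr rfl (fun κ _ => h2 κ), ← h1]
      refine Finset.sum_congr rfl fun β _ => ?_
      rw [MvPowerSeries.coeff_smul, MvPowerSeries.coeff_apply]
      unfold fundF
      rw [eval_mul, eval_natCast, eval_prod]
      simp_rw [eval_sub, eval_X, eval_C]
      rw [← descPochhammer_eval_eq_prod_range, descPochhammer_eval_eq_descFactorial]
    rw [hR]
    have h4 := count_main (a := a) hr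
    rw [card_WInc] at h4
    have h5 : ∏ x ∈ univ.image r, Nat.multichoose a (#{v | r v = x}) =
        ∏ x ∈ e.support, Nat.multichoose a (e x) := by
      rw [content_support r e he]
      refine Finset.prod_congr rfl fun x _ => ?_
      rw [← he, content_apply]
    rw [h5] at h4
    rw [← h4, Finset.card_filter, Fintype.sum_prod_type]
    push_cast
    rfl

end Pool.Agent.Results.MP_d77547_co.OneRowJack
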